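import Mathlib
import Pool.Agent.H490R3.ASA.Vol

/-!
Affine surface-area domination does not imply volume comparison, in every dimension `n ≥ 3`.

`C₂` is the cross-polytope and `C₁` is a slightly larger cross-polytope truncated at its vertices by
coordinate hyperplanes.  The surface area of the image of a facet with normal `ν` under a linear map
`A` is proportional to `|det A| ‖A⁻ᵀ ν‖`; the comparison of the two surface areas reduces to
`∑ ‖b i‖ ≤ (2 n / 3) 2⁻ⁿ ∑_σ ‖∑ σ i b i‖`, which follows from Hlawka's inequality.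
-/

set_option autoImplicit false

open MeasureTheory Measure
open scoped ENNReal

namespace Pool.Agent.Results.MP_8228af_gt.DominationFails

/-- Euclidean `n`-space. -/
abbrev Sp (n : ℕ) : Type := EuclideanSpace ℝ (Fin n)

/-- Surface area: the `(n-1)`-dimensional Hausdorff measure of the boundary. -/
noncomputable def surfaceArea {n : ℕ} (X : Set (Sp n)) : ℝ≥0∞ := μH[(n : ℝ) - 1] (frontier X)

/-- `C₂` dominates `C₁` in affine surface area: for every nonsingular affine map `A` the surface
area of `A C₁` is at most that of `A C₂`. -/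
def Dominates {n : ℕ} (C₂ C₁ : Set (Sp n)) : Prop :=
  ∀ A : Sp n ≃ᵃ[ℝ] Sp n, surfaceArea (A '' C₁) ≤ surfaceArea (A '' C₂)

/-- A compact convex set with nonempty interior which is symmetric about the origin. -/
def IsSymmBody {n : ℕ} (C : Set (Sp n)) : Prop :=
  Convex ℝ C ∧ IsCompact C ∧ (interior C).Nonempty ∧ ∀ x ∈ C, -x ∈ C

/-- For every `n ≥ 3` there are origin-symmetric convex bodies `C₁, C₂` in `n`-space such that the
surface area of `A C₁` is at most that of `A C₂` for every nonsingular affine map `A`, although the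
volume of `C₁` is larger than the volume of `C₂`. -/
theorem result : ∀ n : ℕ, 3 ≤ n → ∃ C₁ C₂ : Set (Sp n),
    IsSymmBody C₁ ∧ IsSymmBody C₂ ∧ Dominates C₂ C₁ ∧ volume C₂ < volume C₁ := by
  intro n hn
  obtain ⟨k, rfl⟩ : ∃ k, n = k + 2 + 1 := ⟨n - 3, by omega⟩
  obtain ⟨C₁, C₂, h1, h2, h3, h4, h5, h6⟩ := H490R3.ASA.main k
  have e : ((k + 2 + 1 : ℕ) : ℝ) - 1 = ((k + 2 : ℕ) : ℝ) := by push_cast; ring
  refine ⟨C₁, C₂, ⟨C₁.convex, C₁.isCompact, h1, h3⟩, ⟨C₂.convex, C₂.isCompact, h2, h4⟩, ?_, h6⟩
  intro A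
  unfold surfaceArea
  rw [e]
  exact h5 A

end Pool.Agent.Results.MP_8228af_gt.DominationFails
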